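import Pool.Agent.Lib.MP_c7af3c_ag.T2C.IfaceA
import Pool.Agent.Lib.MP_c7af3c_ag.T2.H79.Rk1T

/-!
# MP_c7af3c_ag, project T2C: row RK1
-/

set_option autoImplicit false

namespace Pool.Agent.T2C.H79

open MvPolynomial Pool.Agent.Gen Pool.Agent.Sharp Pool.Agent.Edge Pool.Agent.Lines
open Pool.Agent.T2 (Fk Rac lnf Sizes Sit)

/-- Row RK1. -/
theorem rk1 : Rk1Statement := by
  intro _ Ω _ _ k n c d D x j0 hn hd hx _ hT hA
  refine Pool.Agent.T2.H79.rk1T D hx hd (by omega)
    (fun p q => Submodule.subset_span (Or.inr (Or.inl ⟨p, q, rfl⟩))) hT fun A hAi => ?_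
  have hk : Tk k d A := by
    refine ⟨fun m I hI => ?_, fun m I => ?_⟩
    · have h1 := (hAi m).1 hI
      have h2 := hd m
      have h3 : I.degree = d m - 1 := by
        rw [Finsupp.degree_eq_weight_one]
        exact h1
      omega
    obtain ⟨z, hz⟩ := (hAi m).2 I
    rw [hz]
    exact intCast_mem k z
  refine ⟨EA D x j0 k A, ?_, hA A hk, fun i => Submodule.subset_span (Or.inr ⟨i, rfl⟩)⟩
  exact Submodule.span_mono Set.subset_union_left

end Pool.Agent.T2C.H79
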