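import Pool.Agent.Lib.MP_c7af3c_ag.T2C.IfaceB
import Pool.Agent.Lib.MP_c7af3c_ag.T2.H79.Phi

/-!
# MP_c7af3c_ag, project T2C, row PHI: the tuples which move neither the point nor the plane
-/

set_option autoImplicit false

namespace Pool.Agent.T2C.H79

open MvPolynomial Pool.Agent.Gen Pool.Agent.Sharp Pool.Agent.Edge
open Pool.Agent.T2C.H8 (Fix T3 HomC lift rs RC sm mulC dT PlC)
open Pool.Agent.Sharp.H75 (dco DG af Tup Hom)
open Pool.Agent.Edge.H65 (ssub)

section

variable {K : Type} [Field K] {n c : ℕ} {d : Fin c → ℕ} {D : DSys K n c d}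
  {x : Fin (n + 1) → K} {t : Fin 3 → Fin (n + 1)} {P : Fin 3 → Fin (n + 1) → K}

theorem D_one (G : Tup K n c) : DG D G 1 = 0 := (DG D G).map_one_eq_zero

theorem D_t0 (h : Pl D x t P) (G : Tup K n c) : DG D G (x (t 0)) = 0 := by
  rw [h.x0]
  exact D_one G

theorem D_Pt (h : Pl D x t P) (G : Tup K n c) (i j : Fin 3) : DG D G (P i (t j)) = 0 := by
  rw [h.Pt]
  split_ifs
  · exact D_one G
  · exact map_zero _

theorem D_x (h : Pl D x t P) (G : Tup K n c) (f : Fin (n + 1)) :
    DG D G (x f) = ∑ i, (P i f * DG D G (x (t i)) + x (t i) * DG D G (P i f)) := by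
  rw [h.xP f, map_sum]
  refine Finset.sum_congr rfl fun i _ => ?_
  rw [Derivation.leibniz, smul_eq_mul, smul_eq_mul]

/-- the variation depends only on the restriction to the plane -/
theorem D_rest (h : Pl D x t P) {G : Tup K n c} (hG : Hom d G) :
    (∀ f, DG D (lift t (rs P G)) (x f) = DG D G (x f)) ∧
      ∀ i f, DG D (lift t (rs P G)) (P i f) = DG D G (P i f) := by
  have h0 : ∀ m, ssub P ((G - lift t (rs P G)) m) = 0 := by
    intro m
    have := H8.rs_sub (P := P) G (lift t (rs P G))
    rw [H8.rs_lift h.Pt, sub_self] at this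
    exact congrFun this m
  obtain ⟨h1, h2⟩ := h.int _ (H8.Hom.sub' hG (H8.lift_hom (H8.rs_hom hG))) h0
  refine ⟨fun f => ?_, fun i f => ?_⟩
  · have := h1 f
    rw [Sharp.H75.DG_sub, sub_eq_zero] at this
    exact this.symm
  · have := h2 i f
    rw [Sharp.H75.DG_sub, sub_eq_zero] at this
    exact this.symm

/-! ### the dimension -/

/-- the coordinates off the plane -/
abbrev Off (t : Fin 3 → Fin (n + 1)) : Type := {f : Fin (n + 1) // f ∉ Set.range t}

theorem card_off (hn : n = c + 3) (ht : Function.Injective t) : Nat.card (Off t) = c + 1 := by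
  classical
  have h1 : Nat.card {f : Fin (n + 1) // f ∈ Set.range t} = 3 := by
    have := Nat.card_congr (Equiv.ofInjective t ht)
    rw [Nat.card_eq_fintype_card, Fintype.card_fin] at this
    exact this.symm
  have h2 : Nat.card {f : Fin (n + 1) // f ∈ Set.range t} + Nat.card (Off t) =
      Nat.card (Fin (n + 1)) := by
    rw [Nat.card_eq_fintype_card, Nat.card_eq_fintype_card, Nat.card_eq_fintype_card]
    have := Fintype.card_subtype_compl (fun f : Fin (n + 1) => f ∈ Set.range t)
    have h3 : Fintype.card {f : Fin (n + 1) // f ∈ Set.range t} ≤ Fintype.card (Fin (n + 1)) :=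
      Fintype.card_subtype_le _
    have h4 : Fintype.card (Off t) =
      Fintype.card {f : Fin (n + 1) // ¬ f ∈ Set.range t} := rfl
    omega
  rw [h1, Nat.card_eq_fintype_card (α := Fin (n + 1)), Fintype.card_fin] at h2
  omega

theorem finite_ST (r : Fin c → ℕ) : Module.Finite K (ST K r) := by
  have hf : ∀ m, Module.Finite K (homogeneousSubmodule (Fin 3) K (r m)) :=
    fun m => Edge.H65.finite_hom3 K (r m)
  let φ : ST K r →ₗ[K] ((m : Fin c) → homogeneousSubmodule (Fin 3) K (r m)) :=
    { toFun := fun g m => ⟨g.1 m, g.2 m⟩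
      map_add' := fun _ _ => rfl
      map_smul' := fun _ _ => rfl }
  refine Module.Finite.of_injective φ fun g g' h => ?_
  refine Subtype.ext (funext fun m => ?_)
  exact congrArg Subtype.val (congrFun h m)

/-- the lift as a linear map -/
noncomputable def liftL (t : Fin 3 → Fin (n + 1)) : T3 K c →ₗ[K] Tup K n c where
  toFun := lift t
  map_add' := H8.lift_add
  map_smul' := H8.lift_smul

variable (D x t P) in
/-- the coordinates of the variation of the flag -/
noncomputable def Psi : T3 K c →ₗ[K] (Fin 2 → K) × (Fin 3 → Off t → K) :=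
  LinearMap.prod
    (LinearMap.pi fun a => (LinearMap.proj (t a.succ)).comp
      ((Sharp.H75.VT D x).comp (liftL t)))
    (LinearMap.pi fun i => LinearMap.pi fun f => (LinearMap.proj f.1).comp
      ((Sharp.H75.VT D (P i)).comp (liftL t)))

theorem Psi_fst (g : T3 K c) (a : Fin 2) :
    (Psi D x t P g).1 a = DG D (lift t g) (x (t a.succ)) := Sharp.H75.VT_apply D x _ _

theorem Psi_snd (g : T3 K c) (i : Fin 3) (f : Off t) :
    (Psi D x t P g).2 i f = DG D (lift t g) (P i f.1) := Sharp.H75.VT_apply D (P i) _ _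

theorem Psi_ker (h : Pl D x t P) {g : T3 K c} (hg : HomC d g) :
    Psi D x t P g = 0 ↔ g ∈ RC D x t P := by
  constructor
  · intro h0
    have h1 : ∀ i f, DG D (lift t g) (P i f) = 0 := by
      intro i f
      by_cases hf : f ∈ Set.range t
      · obtain ⟨j, rfl⟩ := hf
        exact D_Pt h _ i j
      · have := congrFun (congrFun (congrArg Prod.snd h0) i) ⟨f, hf⟩
        rw [Psi_snd] at this
        exact this
    have h2 : ∀ i, DG D (lift t g) (x (t i)) = 0 := by
      intro i
      refine Fin.cases ?_ (fun a => ?_) i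
      · exact D_t0 h _
      · have := congrFun (congrArg Prod.fst h0) a
        rw [Psi_fst] at this
        exact this
    refine ⟨hg, fun f => ?_, h1⟩
    rw [D_x h]
    refine Finset.sum_eq_zero fun i _ => ?_
    rw [h1, h2, mul_zero, mul_zero, add_zero]
  · rintro ⟨-, h1, h2⟩
    refine Prod.ext ?_ ?_
    · funext a
      rw [Psi_fst, h1]
      rfl
    · funext i f
      rw [Psi_snd, h2]
      rfl

/-- the matrix with the given values on the frame -/
noncomputable def mE (t : Fin 3 → Fin (n + 1)) (τ : Fin 3 → Fin (n + 1) → K) :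
    Fin (n + 1) → Fin (n + 1) → K :=
  fun f q => ∑ j, if q = t j then τ j f else 0

theorem mE_apply (τ : Fin 3 → Fin (n + 1) → K) (v : Fin (n + 1) → K) (f : Fin (n + 1)) :
    ∑ q, mE t τ f q * v q = ∑ j, τ j f * v (t j) := by
  unfold mE
  simp only [Finset.sum_mul]
  rw [Finset.sum_comm]
  refine Finset.sum_congr rfl fun j _ => ?_
  rw [Finset.sum_eq_single (t j)]
  · rw [if_pos rfl]
  · intro q _ hq
    rw [if_neg hq, zero_mul]
  · intro h; exact absurd (Finset.mem_univ _) h

theorem mE_P (h : Pl D x t P) (τ : Fin 3 → Fin (n + 1) → K) (i : Fin 3) (f : Fin (n + 1)) :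
    ∑ q, mE t τ f q * P i q = τ i f := by
  rw [mE_apply, Finset.sum_eq_single i]
  · rw [h.Pt, if_pos rfl, mul_one]
  · intro j _ hj
    rw [h.Pt, if_neg (Ne.symm hj), mul_zero]
  · intro h; exact absurd (Finset.mem_univ _) h

variable (D) in
/-- the action of a matrix on the equations -/
noncomputable def aF (E : Fin (n + 1) → Fin (n + 1) → K) : Tup K n c := fun m => af E (D.F m)

theorem hom_aF (E : Fin (n + 1) → Fin (n + 1) → K) : Hom d (aF D E) :=
  fun m => Sharp.H75.af_hom E (D.hom m)

/-- PCAN for the matrix `mE` -/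
theorem pcan_mE (hc : PcanStatement) [CharZero K] (hTy : Ty n c d) (h : Pl D x t P)
    (τ : Fin 3 → Fin (n + 1) → K) :
    (∀ f, DG D (lift t (rs P (aF D (mE t τ)))) (x f) =
      (∑ j, τ j (t 0) * x (t j)) * x f - ∑ j, τ j f * x (t j)) ∧
    ∀ i f, DG D (lift t (rs P (aF D (mE t τ)))) (P i f) =
      ∑ j, τ i (t j) * P j f - τ i f := by
  obtain ⟨h1, h2⟩ := (hc K n c d D x t P hTy h).1 (mE t τ)
  obtain ⟨h3, h4⟩ := D_rest h (hom_aF (D := D) (mE t τ))
  refine ⟨fun f => ?_, fun i f => ?_⟩
  · rw [h3]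
    have := h1 f
    rw [mE_apply, mE_apply] at this
    rw [← this]
    unfold aF
    ring
  · rw [h4]
    have := h2 i f
    rw [mE_P h] at this
    rw [eq_sub_iff_add_eq]
    unfold aF
    rw [this]
    refine Finset.sum_congr rfl fun j _ => ?_
    unfold mat
    rw [mE_P h]

theorem Psi_surj (hc : PcanStatement) [CharZero K] (hTy : Ty n c d) (h : Pl D x t P)
    (a : Fin 2 → K) (w : Fin 3 → Off t → K) :
    ∃ g : T3 K c, HomC d g ∧ Psi D x t P g = (a, w) := by
  classical
  let e : Fin 3 → Fin 3 → K := fun i => Fin.cases (fun l => Fin.cases 0 (fun a' => - a a') l)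
    (fun _ _ => 0) i
  have hc0 : ∀ l, e 0 l = Fin.cases 0 (fun a' => - a a') l := fun l => rfl
  have hcs : ∀ (i : Fin 2) l, e i.succ l = 0 := fun i l => rfl
  let w' : Fin 3 → Fin (n + 1) → K :=
    fun i f => if hf : f ∉ Set.range t then w i ⟨f, hf⟩ else 0
  have hw1 : ∀ i (f : Off t), w' i f.1 = w i f := fun i f => dif_pos f.2
  have hw2 : ∀ i j, w' i (t j) = 0 := fun i j => dif_neg (not_not.2 ⟨j, rfl⟩)
  let τ : Fin 3 → Fin (n + 1) → K := fun i f => ∑ j, e i j * P j f - w' i f
  have hτ1 : ∀ i j, τ i (t j) = e i j := by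
    intro i j
    change ∑ l, e i l * P l (t j) - w' i (t j) = _
    rw [hw2, sub_zero, Finset.sum_eq_single j]
    · rw [h.Pt, if_pos rfl, mul_one]
    · intro l _ hl
      rw [h.Pt, if_neg hl, mul_zero]
    · intro h; exact absurd (Finset.mem_univ _) h
  obtain ⟨h1, h2⟩ := pcan_mE hc hTy h τ
  refine ⟨rs P (aF D (mE t τ)), H8.rs_hom (hom_aF _), Prod.ext ?_ ?_⟩
  · funext a'
    rw [Psi_fst, h1]
    simp only [hτ1]
    rw [Fin.sum_univ_succ, Fin.sum_univ_succ (f := fun j => e j a'.succ * x (t j)), hc0, hc0, h.x0]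
    simp only [hcs]
    simp
  · funext i f
    rw [Psi_snd, h2]
    simp only [hτ1]
    change ∑ j, e i j * P j f.1 - (∑ j, e i j * P j f.1 - w' i f.1) = w i f
    rw [hw1]
    ring

theorem finrank_RC (hc : PcanStatement) [CharZero K] (hTy : Ty n c d) (h : Pl D x t P) :
    Module.finrank K (RC D x t P) + (3 * c + 5) = Module.finrank K (ST K d) := by
  classical
  have hfin : Module.Finite K (ST K d) := finite_ST d
  let ψ := (Psi D x t P).domRestrict (ST K d)
  have hψ : Function.Surjective ψ := by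
    rintro ⟨a, w⟩
    obtain ⟨g, hg, hg'⟩ := Psi_surj hc hTy h a w
    exact ⟨⟨g, hg⟩, hg'⟩
  have h1 := LinearMap.finrank_range_add_finrank_ker ψ
  rw [LinearMap.range_eq_top.2 hψ, finrank_top] at h1
  have h2 : Module.finrank K ((Fin 2 → K) × (Fin 3 → Off t → K)) = 3 * c + 5 := by
    rw [Module.finrank_prod, Module.finrank_fin_fun]
    have : Module.finrank K (Fin 3 → Off t → K) = 3 * Module.finrank K (Off t → K) := by
      rw [Module.finrank_pi_fintype]
      simp
    rw [this, Module.finrank_fintype_fun_eq_card, ← Nat.card_eq_fintype_card,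
      card_off hTy.hn h.inj]
    ring
  rw [h2] at h1
  have h3 : RC D x t P = (LinearMap.ker ψ).map (ST K d).subtype := by
    ext g
    constructor
    · intro hg
      exact ⟨⟨g, hg.1⟩, (Psi_ker h hg.1).2 hg, rfl⟩
    · rintro ⟨g, hg, rfl⟩
      exact (Psi_ker h g.2).1 hg
  rw [h3, Submodule.finrank_map_subtype_eq]
  omega

/-! ### a line in the plane -/

variable (D x t P) in
/-- the variation of the point and of the frame -/
noncomputable def Phi : T3 K c →ₗ[K] (Fin (n + 1) → K) × (Fin 3 → Fin (n + 1) → K) :=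
  LinearMap.prod ((Sharp.H75.VT D x).comp (liftL t))
    (LinearMap.pi fun i => (Sharp.H75.VT D (P i)).comp (liftL t))

theorem Phi_fst (g : T3 K c) (f : Fin (n + 1)) :
    (Phi D x t P g).1 f = DG D (lift t g) (x f) := Sharp.H75.VT_apply D x _ _

theorem Phi_snd (g : T3 K c) (i : Fin 3) (f : Fin (n + 1)) :
    (Phi D x t P g).2 i f = DG D (lift t g) (P i f) := Sharp.H75.VT_apply D (P i) _ _

theorem mulC_le (hTy : Ty n c d) (z : MvPolynomial (Fin 3) K) (hz : z.IsHomogeneous 1) :
    mulC z (fun m => d m - 1) ≤ ST K d := by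
  rintro _ ⟨b, hb, rfl⟩ m
  have h1 : (z * b m).IsHomogeneous (1 + (d m - 1)) := hz.mul (hb m)
  have h2 := hTy.two m
  rwa [show 1 + (d m - 1) = d m by omega] at h1

theorem fin_le {N : Submodule K (T3 K c)} (h : N ≤ ST K d) : Module.Finite K N := by
  have hfin : Module.Finite K (ST K d) := finite_ST d
  exact Submodule.finiteDimensional_of_le h

/-- `c + 3` independent values give the bound -/
theorem bound (hc : PcanStatement) [CharZero K] (hTy : Ty n c d) (h : Pl D x t P)
    (z : MvPolynomial (Fin 3) K) (hz : z.IsHomogeneous 1) {ι : Type} [Fintype ι]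
    (hι : Fintype.card ι = c + 3) (g : ι → T3 K c) (hg : ∀ i, g i ∈ mulC z (fun m => d m - 1))
    (hli : LinearIndependent K fun i => Phi D x t P (g i)) :
    Module.finrank K (ST K d) ≤
      Module.finrank K (RC D x t P ⊔ mulC z (fun m => d m - 1) : Submodule K (T3 K c)) +
        (2 * c + 2) := by
  classical
  have hR : RC D x t P ≤ ST K d := fun g hg => hg.1
  have hN : RC D x t P ⊔ mulC z (fun m => d m - 1) ≤ ST K d := sup_le hR (mulC_le hTy z hz)
  obtain ⟨N, hNd⟩ : ∃ N, N = RC D x t P ⊔ mulC z (fun m => d m - 1) := ⟨_, rfl⟩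
  rw [← hNd] at hN ⊢
  have hf := fin_le hN
  let φ := (Phi D x t P).domRestrict N
  have h1 := LinearMap.finrank_range_add_finrank_ker φ
  have h2 : c + 3 ≤ Module.finrank K (LinearMap.range φ) := by
    let v : ι → LinearMap.range φ := fun i =>
      ⟨Phi D x t P (g i), ⟨⟨g i, by rw [hNd]; exact Submodule.mem_sup_right (hg i)⟩, rfl⟩⟩
    have hv : LinearIndependent K v :=
      LinearIndependent.of_comp (LinearMap.range φ).subtype hli
    have := hv.fintype_card_le_finrank
    rwa [hι] at this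
  have h3 : RC D x t P = (LinearMap.ker φ).map N.subtype := by
    ext g
    constructor
    · intro hg
      refine ⟨⟨g, by rw [hNd]; exact Submodule.mem_sup_left hg⟩, ?_, rfl⟩
      change Phi D x t P g = 0
      refine Prod.ext (funext fun f => ?_) (funext fun i => funext fun f => ?_)
      · rw [Phi_fst, hg.2.1]
        rfl
      · rw [Phi_snd, hg.2.2]
        rfl
    · rintro ⟨g, hg, rfl⟩
      have h0 : Phi D x t P g.1 = 0 := hg
      refine ⟨hN g.2, fun f => ?_, fun i f => ?_⟩
      · have := congrFun (congrArg Prod.fst h0) f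
        rw [Phi_fst] at this
        exact this
      · have := congrFun (congrFun (congrArg Prod.snd h0) i) f
        rw [Phi_snd] at this
        exact this
  have h4 := finrank_RC hc hTy h
  rw [h3, Submodule.finrank_map_subtype_eq] at h4
  omega

/-- the forms `z F_v` -/
theorem zF (h : Pl D x t P) (ζ : Fin 3 → K) (v : Fin (n + 1) → K) :
    rs P (aF D (mE t fun j f => v f * ζ j)) ∈ mulC (∑ i, C (ζ i) * X i) (fun m => d m - 1) := by
  classical
  refine ⟨fun m => ∑ p, C (v p) * ssub P (pderiv p (D.F m)), fun m => ?_, funext fun m => ?_⟩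
  · change (∑ p, C (v p) * ssub P (pderiv p (D.F m))).IsHomogeneous (d m - 1)
    refine IsHomogeneous.sum _ _ _ fun p _ => ?_
    have h1 : (pderiv p (D.F m)).IsHomogeneous (d m - 1) := (D.hom m).pderiv
    simpa using (isHomogeneous_C _ (v p)).mul (Edge.H65.ssub_hom P h1)
  · change (∑ i, C (ζ i) * X i) * _ = ssub P (af _ (D.F m))
    unfold af
    rw [map_sum, Finset.mul_sum]
    refine Finset.sum_congr rfl fun p _ => ?_
    rw [map_mul, ← mul_assoc]
    congr 1
    unfold Sharp.H75.lf
    rw [map_sum]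
    simp only [map_mul, Edge.H65.ssub_C, Edge.H65.ssub_X]
    have h2 : ∀ q, (C (mE t (fun j f => v f * ζ j) p q) : MvPolynomial (Fin 3) K) *
        ∑ i, C (P i q) * X i = ∑ i, C (mE t (fun j f => v f * ζ j) p q * P i q) * X i := by
      intro q
      rw [Finset.mul_sum]
      exact Finset.sum_congr rfl fun i _ => by rw [map_mul, mul_assoc]
    simp only [h2]
    rw [Finset.sum_comm, Finset.sum_mul]
    refine Finset.sum_congr rfl fun i _ => ?_
    rw [← Finset.sum_mul, ← map_sum, mE_P h, map_mul]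
    ring

theorem pcan_zF (hc : PcanStatement) [CharZero K] (hTy : Ty n c d) (h : Pl D x t P)
    (ζ : Fin 3 → K) (v : Fin (n + 1) → K) :
    (∀ f, DG D (lift t (rs P (aF D (mE t fun j f => v f * ζ j)))) (x f) =
      (∑ j, ζ j * x (t j)) * (v (t 0) * x f - v f)) ∧
    ∀ i f, DG D (lift t (rs P (aF D (mE t fun j f => v f * ζ j)))) (P i f) =
      ζ i * (∑ j, v (t j) * P j f - v f) := by
  obtain ⟨h1, h2⟩ := pcan_mE hc hTy h fun j f => v f * ζ j
  refine ⟨fun f => ?_, fun i f => ?_⟩
  · rw [h1]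
    have e : ∀ a : K, ∑ j, a * ζ j * x (t j) = a * ∑ j, ζ j * x (t j) := by
      intro a
      rw [Finset.mul_sum]
      exact Finset.sum_congr rfl fun j _ => by ring
    rw [e, e]
    ring
  · rw [h2, mul_sub, Finset.mul_sum]
    congr 1
    · exact Finset.sum_congr rfl fun j _ => by ring
    · ring

/-- the line does not contain the point -/
theorem case_out (hc : PcanStatement) [CharZero K] (hTy : Ty n c d) (h : Pl D x t P)
    (ζ : Fin 3 → K) (hζ : ∑ j, ζ j * x (t j) ≠ 0) :
    Module.finrank K (ST K d) ≤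
      Module.finrank K (RC D x t P ⊔ mulC (∑ i, C (ζ i) * X i) (fun m => d m - 1) :
        Submodule K (T3 K c)) + (2 * c + 2) := by
  classical
  refine bound hc hTy h _ (Edge.H65.form_hom ζ) (ι := {f : Fin (n + 1) // f ≠ t 0})
    (by simp [hTy.hn])
    (fun f => rs P (aF D (mE t fun j f' =>
      (Pi.single f.1 (1 : K) : Fin (n + 1) → K) f' * ζ j)))
    (fun f => zF h ζ _) ?_
  rw [Fintype.linearIndependent_iff]
  intro a ha f
  have h1 := congrFun (congrArg Prod.fst ha) f.1
  rw [Prod.fst_sum, Finset.sum_apply] at h1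
  simp only [Prod.smul_fst, Pi.smul_apply, Phi_fst, (pcan_zF hc hTy h ζ _).1, smul_eq_mul,
    Prod.fst_zero, Pi.zero_apply] at h1
  rw [Finset.sum_eq_single f] at h1
  · rw [Pi.single_eq_same, Pi.single_eq_of_ne (Ne.symm f.2)] at h1
    have h2 : a f * (∑ j, ζ j * x (t j)) = 0 := by linear_combination - h1
    exact (mul_eq_zero.1 h2).resolve_right hζ
  · intro f' _ hf'
    have hne : f.1 ≠ f'.1 := fun e => hf' (Subtype.ext e.symm)
    rw [Pi.single_eq_of_ne hne, Pi.single_eq_of_ne (Ne.symm f'.2)]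
    ring
  · intro h; exact absurd (Finset.mem_univ _) h

theorem eval_ssub (a : Fin 3 → K) (G : MvPolynomial (Fin (n + 1)) K) :
    eval a (ssub P G) = eval (fun f => ∑ i, a i * P i f) G := by
  have h : (aeval a : MvPolynomial (Fin 3) K →ₐ[K] K).comp (ssub P) =
      aeval fun f => ∑ i, a i * P i f := by
    refine MvPolynomial.algHom_ext fun j => ?_
    rw [AlgHom.comp_apply, Edge.H65.ssub_X, map_sum, aeval_X]
    refine Finset.sum_congr rfl fun i _ => ?_
    rw [map_mul, aeval_C, aeval_X]
    exact mul_comm _ _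
  exact DFunLike.congr_fun h G

/-- the line contains the point -/
theorem case_in (hc : PcanStatement) [CharZero K] (hTy : Ty n c d) (h : Pl D x t P)
    (ζ : Fin 3 → K) (hζ0 : ζ ≠ 0) (hζ : ∑ j, ζ j * x (t j) = 0) :
    Module.finrank K (ST K d) ≤
      Module.finrank K (RC D x t P ⊔ mulC (∑ i, C (ζ i) * X i) (fun m => d m - 1) :
        Submodule K (T3 K c)) + (2 * c + 2) := by
  classical
  -- a second point
  obtain ⟨y', hy'⟩ : ∃ y' : Fin (n + 1) → K, y' = fun f => ∑ i, ![0, - ζ 2, ζ 1] i * P i f :=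
    ⟨_, rfl⟩
  have hy't : ∀ j, y' (t j) = ![0, - ζ 2, ζ 1] j := by
    intro j
    rw [hy']
    change ∑ i, ![0, - ζ 2, ζ 1] i * P i (t j) = _
    rw [Finset.sum_eq_single j]
    · rw [h.Pt, if_pos rfl, mul_one]
    · intro i _ hi
      rw [h.Pt, if_neg hi, mul_zero]
    · intro h; exact absurd (Finset.mem_univ _) h
  have h12 : ¬ (ζ 1 = 0 ∧ ζ 2 = 0) := by
    rintro ⟨h1, h2⟩
    apply hζ0
    have h0 : ζ 0 = 0 := by
      rw [Fin.sum_univ_three, h1, h2, h.x0] at hζ
      simpa using hζ
    funext j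
    fin_cases j
    · exact h0
    · exact h1
    · exact h2
  have hli : LinearIndependent K ![x, y'] := by
    rw [LinearIndependent.pair_iff]
    intro s r hsr
    have e0 := congrFun hsr (t 0)
    have e1 := congrFun hsr (t 1)
    have e2 := congrFun hsr (t 2)
    rw [Pi.add_apply, Pi.smul_apply, Pi.smul_apply, smul_eq_mul, smul_eq_mul, hy't] at e0 e1 e2
    have hs : s = 0 := by
      rw [h.x0] at e0
      simpa using e0
    subst hs
    refine ⟨rfl, ?_⟩
    by_contra hr
    apply h12
    constructor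
    · have : r * ζ 1 = 0 := by simpa using e2
      exact (mul_eq_zero.1 this).resolve_left hr
    · have : r * ζ 2 = 0 := by simpa using e1
      exact (mul_eq_zero.1 this).resolve_left hr
  -- divisibility
  have hdiv : ∀ (e : ℕ) (G : MvPolynomial (Fin (n + 1)) K), G.IsHomogeneous e →
      lineP G x y' = 0 → ∃ b : MvPolynomial (Fin 3) K, b.IsHomogeneous (e - 1) ∧
        (∑ i, C (ζ i) * X i) * b = ssub P G := by
    intro e G hG hG0
    have hd : (∑ i, C (ζ i) * X i) ∣ ssub P G := by
      have : Infinite K := Infinite.of_injective (fun m : ℕ => (m : K)) Nat.cast_injective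
      refine T2.H79.dvd_line ζ (fun j => x (t j)) h.x0 hζ hζ0 fun s r hs => ?_
      rw [eval_ssub]
      have e : (fun f => ∑ i, (s * x (t i) + r * ![0, - ζ 2, ζ 1] i) * P i f) =
          fun f => s * (x f + (r / s) * y' f) := by
        funext f
        rw [h.xP f, hy']
        change _ = s * (_ + r / s * ∑ i, ![0, - ζ 2, ζ 1] i * P i f)
        rw [mul_add, ← mul_assoc s (r / s), mul_div_cancel₀ r hs, Finset.mul_sum, Finset.mul_sum,
          ← Finset.sum_add_distrib]
        exact Finset.sum_congr rfl fun i _ => by ring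
      rw [e, Sharp.H54.eval_smul_form hG, ← Sharp.H54.lineP_eval, hG0, Polynomial.eval_zero, mul_zero]
    obtain ⟨A, hA⟩ := hd
    by_cases h0 : ssub P G = 0
    · exact ⟨0, isHomogeneous_zero _ _ _, by rw [h0, mul_zero]⟩
    have h1 : ((∑ i, C (ζ i) * X i) * A).IsHomogeneous e := by
      rw [← hA]; exact Edge.H65.ssub_hom P hG
    obtain ⟨-, h2⟩ := Edge.H9.Forms.hom_quot h1 (Edge.H65.form_hom ζ) (by rw [← hA]; exact h0)
    exact ⟨A, h2, hA.symm⟩
  have hdivT : ∀ G : Tup K n c, Hom d G → (∀ m, lineP (G m) x y' = 0) →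
      rs P G ∈ mulC (∑ i, C (ζ i) * X i) (fun m => d m - 1) := by
    intro G hG hG0
    choose b hb hb' using fun m => hdiv (d m) (G m) (hG m) (hG0 m)
    exact ⟨b, hb, funext hb'⟩
  obtain ⟨G1, hG1, hG1l, hG1v⟩ := h.ln y' 0 hli
  obtain ⟨G2, hG2, hG2l, hG2v⟩ := h.ln y' (fun f => DG D G1 (x f)) hli
  obtain ⟨i0, hi0⟩ : ∃ i, ζ i ≠ 0 := Function.ne_iff.1 hζ0
  have : Fintype (Off t) := Fintype.ofFinite _
  have hcard : Fintype.card (Off t ⊕ Fin 2) = c + 3 := by
    rw [Fintype.card_sum, ← Nat.card_eq_fintype_card, card_off hTy.hn h.inj, Fintype.card_fin]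
  refine bound hc hTy h _ (Edge.H65.form_hom ζ) (ι := Off t ⊕ Fin 2) hcard
    (Sum.elim (fun f => rs P (aF D (mE t fun j f' =>
      (Pi.single f.1 (1 : K) : Fin (n + 1) → K) f' * ζ j))) ![rs P G1, rs P G2])
    (by
      rintro (f | a)
      · exact zF h ζ _
      · fin_cases a
        · exact hdivT G1 hG1 hG1l
        · exact hdivT G2 hG2 hG2l) ?_
  rw [Fintype.linearIndependent_iff]
  intro a ha
  rw [Fintype.sum_sum_type, Fin.sum_univ_two] at ha
  simp only [Sum.elim_inl, Sum.elim_inr] at ha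
  change ∑ f, a (Sum.inl f) • _ + (a (Sum.inr 0) • Phi D x t P (rs P G1) +
    a (Sum.inr 1) • Phi D x t P (rs P G2)) = 0 at ha
  -- the point
  have e1 : ∀ f, a (Sum.inr 0) * DG D G1 (x f) + a (Sum.inr 1) * DG D G2 (x f) = 0 := by
    intro f
    have e1 := congrFun (congrArg Prod.fst ha) f
    rw [Prod.fst_add, Prod.fst_add, Prod.fst_sum, Prod.smul_fst, Prod.smul_fst, Pi.add_apply,
      Pi.add_apply, Finset.sum_apply, Pi.smul_apply, Pi.smul_apply, Phi_fst, Phi_fst,
      (D_rest h hG1).1, (D_rest h hG2).1, Finset.sum_eq_zero, zero_add, smul_eq_mul,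
      smul_eq_mul] at e1
    · exact e1
    · intro f' _
      rw [Prod.smul_fst, Pi.smul_apply, Phi_fst, (pcan_zF hc hTy h ζ _).1, hζ, zero_mul, smul_zero]
  have hb2 : a (Sum.inr 1) = 0 := by
    by_contra hne
    apply hG2v
    have e2 : (fun f => DG D G2 (x f)) =
        (- (a (Sum.inr 1))⁻¹ * a (Sum.inr 0)) • (fun f => DG D G1 (x f)) := by
      funext f
      have e3 := e1 f
      rw [Pi.smul_apply, smul_eq_mul]
      field_simp
      linear_combination e3
    rw [e2]
    exact Submodule.smul_mem _ _ (Submodule.subset_span (by simp))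
  have hb1 : a (Sum.inr 0) = 0 := by
    by_contra hne
    apply hG1v
    have e2 : (fun f => DG D G1 (x f)) = 0 := by
      funext f
      have e3 := e1 f
      rw [hb2, zero_mul, add_zero] at e3
      exact (mul_eq_zero.1 e3).resolve_left hne
    rw [e2]
    exact Submodule.zero_mem _
  -- the frame
  have hf : ∀ f, a (Sum.inl f) = 0 := by
    intro f
    have e5 := congrFun (congrFun (congrArg Prod.snd ha) i0) f.1
    rw [hb1, hb2, zero_smul, zero_smul, add_zero, add_zero, Prod.snd_sum, Finset.sum_apply,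
      Finset.sum_apply] at e5
    simp only [Prod.smul_snd, Pi.smul_apply, Phi_snd, (pcan_zF hc hTy h ζ _).2, smul_eq_mul,
      Prod.snd_zero, Pi.zero_apply] at e5
    have e6 : ∀ (f' : Off t) (j : Fin 3),
        (Pi.single f'.1 (1 : K) : Fin (n + 1) → K) (t j) = 0 :=
      fun f' j => Pi.single_eq_of_ne (fun e => f'.2 ⟨j, e⟩) _
    simp only [e6, zero_mul, Finset.sum_const_zero, zero_sub] at e5
    rw [Finset.sum_eq_single f] at e5
    · rw [Pi.single_eq_same] at e5
      have e7 : a (Sum.inl f) * ζ i0 = 0 := by linear_combination - e5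
      exact (mul_eq_zero.1 e7).resolve_right hi0
    · intro f' _ hf'
      have hne : f.1 ≠ f'.1 := fun e => hf' (Subtype.ext e.symm)
      rw [Pi.single_eq_of_ne hne]
      ring
    · intro h; exact absurd (Finset.mem_univ _) h
  rintro (f | b)
  · exact hf f
  · fin_cases b
    · exact hb1
    · exact hb2

/-- the tuples in `RC` vanish at the point -/
theorem van (h : Pl D x t P) {g : T3 K c} (hg : g ∈ RC D x t P) (m : Fin c) :
    eval (fun i => x (t i)) (g m) = 0 := by
  have hG : Hom d (lift t g) := H8.lift_hom hg.1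
  have h1 := Gen.H12.der_eval (DG D (lift t g)) x (D.F m)
  rw [h.h0 m, map_zero, ← Sharp.H75.eval_dco, Sharp.H75.dco_F D hG m, Finset.sum_eq_zero,
    add_zero] at h1
  · rw [H8.lift_apply, eval_rename] at h1
    exact h1.symm
  · intro p _
    rw [hg.2.1, mul_zero]

end

/-- Row PHI. -/
theorem phi : PhiStatement := by
  intro hc K _ _ n c d D x t P hTy h
  refine ⟨h.x0, fun g hg => hg.1, fun g hg m => van h hg m, finrank_RC hc hTy h,
    fun z hz hz0 => ?_⟩
  obtain ⟨ζ, rfl⟩ := Edge.H9.lin_form hz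
  have hζ0 : ζ ≠ 0 := by
    rintro rfl
    apply hz0
    simp
  by_cases hζ : ∑ j, ζ j * x (t j) = 0
  · exact case_in hc hTy h ζ hζ0 hζ
  · exact case_out hc hTy h ζ hζ

end Pool.Agent.T2C.H79
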